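import Pool.Agent.Q211.FS.Mod

/-!
# Compact metrizable spaces can all be separable while the countable union theorem fails

The statement that every compact metrizable space is separable does not imply in ZF that countable
unions of countable sets are countable.

The model is a symmetric submodel of a generic extension of a countable transitive model of ZFC. The
notion of forcing is the finite support product of countably many copies of the collapse of `ℵ n` to
`ℵ 0`, for all natural numbers `n`; the group permutes the copies for each `n`, and the supports are
finite. In the model all `ℵ n` of the ground model are countable, but their union is not.

The main point is that every totally bounded space in the model has a well-ordered network: every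
condition on a point has an extension such that all the copies of the point that lie in the
copies of this extension are close to each other (otherwise there are infinitely many mutually
independent copies of the point, with fixed positive distances). A compact metrizable space with a
well-ordered network is separable in ZF.
-/

set_option autoImplicit false

namespace Pool.Agent.Results.MP_b83852_lc.SeparableWithoutCUC

open Pool.Agent.W868 Pool.Agent.Q211.SY Pool.Agent.Q211.FS

/-- There is a countable transitive model of ZF in which every compact metrizable space is
separable, but some countable union of countable sets is uncountable. -/
theorem result : ∃ M : Set ZFSet.{0}, M.Countable ∧ IsZF M ∧
    (∀ X ∈ M, ∀ τ ∈ M, MetrizableIn M X τ → CompactIn M X τ → SeparableIn M X τ) ∧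
    ¬ CUCIn M := by
  obtain ⟨π, h, -⟩ := exists_mod ∅ Set.countable_empty
  exact ⟨_, IsMod.countable π, h.isZF, fun X hX τ hτ hm hc => separable h.cl hX hτ hm hc,
    h.not_cuc⟩

end Pool.Agent.Results.MP_b83852_lc.SeparableWithoutCUC
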